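import Mathlib
import Pool.Agent.H223R3.Radial.Glue

/-!
# Cutoffs, charts from positive functions, compactness lemmas
-/

set_option autoImplicit false

open Set Filter Topology

namespace Pool.Agent.Y855.RD

open Pool.Agent.H223R3.Radial

/-- A smooth function equal to `1` on `[0, 2]` and to `0` outside `(-δ, 2 + δ)`. -/
noncomputable def chi (δ x : ℝ) : ℝ :=
  Real.smoothTransition (1 + x / δ) * Real.smoothTransition (1 + (2 - x) / δ)

lemma chi_contDiff (δ : ℝ) : ContDiff ℝ 1 (chi δ) := by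
  unfold chi
  refine ContDiff.mul ?_ ?_
  · exact Real.smoothTransition.contDiff.comp (contDiff_const.add (contDiff_id.div_const δ))
  · exact Real.smoothTransition.contDiff.comp
      (contDiff_const.add ((contDiff_const.sub contDiff_id).div_const δ))

lemma chi_one {δ x : ℝ} (hδ : 0 < δ) (h0 : 0 ≤ x) (h2 : x ≤ 2) : chi δ x = 1 := by
  unfold chi
  rw [Real.smoothTransition.one_of_one_le, Real.smoothTransition.one_of_one_le, one_mul]
  · have : 0 ≤ (2 - x) / δ := div_nonneg (by linarith) hδ.le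
    linarith
  · have : 0 ≤ x / δ := div_nonneg h0 hδ.le
    linarith

lemma chi_nonneg (δ x : ℝ) : 0 ≤ chi δ x :=
  mul_nonneg (Real.smoothTransition.nonneg _) (Real.smoothTransition.nonneg _)

lemma chi_le_one (δ x : ℝ) : chi δ x ≤ 1 :=
  mul_le_one₀ (Real.smoothTransition.le_one _) (Real.smoothTransition.nonneg _)
    (Real.smoothTransition.le_one _)

lemma chi_mem {δ x : ℝ} (hδ : 0 < δ) (h : chi δ x ≠ 0) : x ∈ Icc (-δ) (2 + δ) := by
  constructor
  · by_contra hlt
    push Not at hlt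
    apply h
    unfold chi
    rw [Real.smoothTransition.zero_of_nonpos, zero_mul]
    have : x / δ ≤ -1 := by
      rw [div_le_iff₀ hδ]
      linarith
    linarith
  · by_contra hlt
    push Not at hlt
    apply h
    unfold chi
    rw [mul_comm, Real.smoothTransition.zero_of_nonpos, zero_mul]
    have : (2 - x) / δ ≤ -1 := by
      rw [div_le_iff₀ hδ]
      linarith
    linarith

/-- The chart with derivative `φ`. -/
noncomputable def mkChart (φ : ℝ → ℝ) (hφ : ContDiff ℝ 1 φ) (m : ℝ) (hm : 0 < m)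
    (hlow : ∀ x, m ≤ φ x) : Chart where
  X := fun x => ∫ t in (0 : ℝ)..x, φ t
  X' := φ
  X'' := deriv φ
  hX := fun x => intervalIntegral.integral_hasDerivAt_right
    (hφ.continuous.intervalIntegrable _ _) (hφ.continuous.stronglyMeasurableAtFilter _ _)
    hφ.continuous.continuousAt
  hX' := fun x => (hφ.differentiable one_ne_zero x).hasDerivAt
  hX'' := hφ.continuous_deriv le_rfl
  pos := fun x => hm.trans_le (hlow x)
  surj := by
    have hd : ∀ x, HasDerivAt (fun x => ∫ t in (0 : ℝ)..x, φ t) (φ x) x := fun x =>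
      intervalIntegral.integral_hasDerivAt_right
        (hφ.continuous.intervalIntegrable _ _) (hφ.continuous.stronglyMeasurableAtFilter _ _)
        hφ.continuous.continuousAt
    have hc : Continuous (fun x => ∫ t in (0 : ℝ)..x, φ t) :=
      continuous_iff_continuousAt.2 fun x => (hd x).continuousAt
    refine hc.surjective ?_ ?_
    · refine tendsto_atTop_mono' _ ?_ (Tendsto.const_mul_atTop hm tendsto_id)
      filter_upwards [eventually_ge_atTop (0 : ℝ)] with x hx
      have h1 : ∫ t in (0 : ℝ)..x, m ≤ ∫ t in (0 : ℝ)..x, φ t :=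
        intervalIntegral.integral_mono_on hx intervalIntegrable_const
          (hφ.continuous.intervalIntegrable _ _) fun t _ => hlow t
      rw [intervalIntegral.integral_const, smul_eq_mul] at h1
      simp only [id_eq]
      linarith
    · refine tendsto_atBot_mono' _ ?_ (Tendsto.const_mul_atBot hm tendsto_id)
      filter_upwards [eventually_le_atBot (0 : ℝ)] with x hx
      have h1 : ∫ t in x..(0 : ℝ), m ≤ ∫ t in x..(0 : ℝ), φ t :=
        intervalIntegral.integral_mono_on hx intervalIntegrable_const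
          (hφ.continuous.intervalIntegrable _ _) fun t _ => hlow t
      rw [intervalIntegral.integral_const, smul_eq_mul] at h1
      rw [intervalIntegral.integral_symm]
      simp only [id_eq]
      linarith

lemma exists_low {φ : ℝ → ℝ} (hc : Continuous φ) (hpos : ∀ x, 0 < φ x)
    (h1 : ∀ x, x ∉ Icc (-1 : ℝ) 3 → φ x = 1) : ∃ m, 0 < m ∧ ∀ x, m ≤ φ x := by
  obtain ⟨x0, hx0, hmin⟩ := isCompact_Icc.exists_isMinOn (s := Icc (-1 : ℝ) 3)
    ⟨0, by norm_num⟩ hc.continuousOn
  refine ⟨min (φ x0) 1, lt_min (hpos _) one_pos, fun x => ?_⟩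
  by_cases hx : x ∈ Icc (-1 : ℝ) 3
  · exact (min_le_left _ _).trans (hmin hx)
  · rw [h1 x hx]
    exact min_le_right _ _

lemma exists_M {a b : ℝ → ℝ} (ha : Continuous a) (hb : Continuous b)
    (hb0 : ∀ x ∈ Icc (0 : ℝ) 2, 0 ≤ b x) (h : ∀ x ∈ Icc (0 : ℝ) 2, b x = 0 → 0 < a x) :
    ∃ M, ∀ x ∈ Icc (0 : ℝ) 2, 0 < a x + M * b x := by
  have hK : IsCompact (Icc (0 : ℝ) 2 ∩ {x | a x ≤ 0}) :=
    isCompact_Icc.inter_right (isClosed_le ha continuous_const)
  rcases (Icc (0 : ℝ) 2 ∩ {x | a x ≤ 0}).eq_empty_or_nonempty with he | hne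
  · refine ⟨0, fun x hx => ?_⟩
    rw [zero_mul, add_zero]
    by_contra hcon
    have : x ∈ Icc (0 : ℝ) 2 ∩ {x | a x ≤ 0} := ⟨hx, not_lt.1 hcon⟩
    rw [he] at this
    exact this
  · obtain ⟨x0, hx0, hmin⟩ := hK.exists_isMinOn hne hb.continuousOn
    obtain ⟨x1, hx1, hmin1⟩ := isCompact_Icc.exists_isMinOn (s := Icc (0 : ℝ) 2)
      ⟨0, by norm_num⟩ ha.continuousOn
    have hβ : 0 < b x0 := by
      rcases (hb0 x0 hx0.1).eq_or_lt with h0 | h0
      · exact absurd (h x0 hx0.1 h0.symm) (not_lt.2 hx0.2)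
      · exact h0
    refine ⟨(|a x1| + 1) / b x0, fun x hx => ?_⟩
    have hM : 0 ≤ (|a x1| + 1) / b x0 := by positivity
    by_cases hax : a x ≤ 0
    · have h1 : b x0 ≤ b x := hmin ⟨hx, hax⟩
      have h2 : a x1 ≤ a x := hmin1 hx
      have h3 : |a x1| + 1 ≤ (|a x1| + 1) / b x0 * b x := by
        calc |a x1| + 1 = (|a x1| + 1) / b x0 * b x0 := by field_simp
          _ ≤ _ := mul_le_mul_of_nonneg_left h1 hM
      have h4 := neg_abs_le (a x1)
      linarith
    · have := mul_nonneg hM (hb0 x hx)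
      push Not at hax
      linarith

lemma exists_delta {U : Set ℝ} (hU : IsOpen U) (h : Icc (0 : ℝ) 2 ⊆ U) :
    ∃ δ, 0 < δ ∧ δ < 1 ∧ Icc (-δ) (2 + δ) ⊆ U := by
  obtain ⟨δ, hδ, hsub⟩ := isCompact_Icc.exists_cthickening_subset_open hU h
  refine ⟨min δ (1 / 2), lt_min hδ (by norm_num), (min_le_right _ _).trans_lt (by norm_num),
    fun x hx => hsub ?_⟩
  have h1 := min_le_left δ (1 / 2)
  have hy : max 0 (min x 2) ∈ Icc (0 : ℝ) 2 :=
    ⟨le_max_left _ _, max_le (by norm_num) (min_le_right _ _)⟩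
  refine Metric.mem_cthickening_of_dist_le x _ δ _ hy ?_
  rw [Real.dist_eq, abs_le]
  obtain ⟨hx1, hx2⟩ := hx
  rcases le_total x 2 with h2 | h2
  · rw [min_eq_left h2]
    rcases le_total 0 x with h3 | h3
    · rw [max_eq_right h3]
      constructor <;> linarith
    · rw [max_eq_left h3]
      constructor <;> linarith
  · rw [min_eq_right h2, max_eq_right (by norm_num)]
    constructor <;> linarith

end Pool.Agent.Y855.RD
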