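import Mathlib

/-!
# The polynomials
-/

set_option autoImplicit false

open Set

namespace Pool.Agent.Y855.RD

/-- `θ(ρ) = ρ G(ρ²)`. -/
noncomputable def G (x : ℝ) : ℝ := 1 + x * (105 - 189 * x + 135 * x ^ 2 - 35 * x ^ 3) / 1260
/-- `θ'(ρ) = H(ρ²)`. -/
noncomputable def H (x : ℝ) : ℝ := 1 + x * (1 - x) ^ 3 / 4
/-- the derivative of `G` -/
noncomputable def Gd (x : ℝ) : ℝ := (105 - 378 * x + 405 * x ^ 2 - 140 * x ^ 3) / 1260
/-- the derivative of `H` -/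
noncomputable def Hd (x : ℝ) : ℝ := (1 - x) ^ 2 * (1 - 4 * x) / 4
/-- `(G H - 1) / x` -/
noncomputable def p (x : ℝ) : ℝ :=
  ((105 - 189 * x + 135 * x ^ 2 - 35 * x ^ 3) / 315 + (1 - x) ^ 3 +
    x * ((105 - 189 * x + 135 * x ^ 2 - 35 * x ^ 3) / 315) * (1 - x) ^ 3 / 4) / 4
/-- `(H² - 1) / x` -/
noncomputable def q (x : ℝ) : ℝ := (1 - x) ^ 3 * (1 + H x) / 4
/-- the factor `T₁` -/
noncomputable def T (ν x : ℝ) : ℝ := ν * H x ^ 2 * p x + G x * H x * q x + 2 * G x * Hd x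
/-- the cofactor of `2 - x` in `1 - 16/9 (H² - 1)²` -/
noncomputable def E1 (x : ℝ) : ℝ := (7 - 4 * H x ^ 2) * (2 * H x + 1) * (x ^ 3 - x ^ 2 + x + 1) / 18
/-- `1260 (G - G(2)) / (2 - x)` -/
noncomputable def J (x : ℝ) : ℝ := 35 * x ^ 3 - 65 * x ^ 2 + 59 * x + 13
/-- the value `G(2)` -/
noncomputable def s : ℝ := 617 / 630
/-- the cofactor of `2 - x` in `G² - s²` -/
noncomputable def G1 (x : ℝ) : ℝ := J x * (G x + s) / 1260
/-- the factor `κ₁` -/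
noncomputable def K (ν M x : ℝ) : ℝ := T ν x + M * (2 * (1 - x) * (G x * H x) * (H x ^ 2 - 1))

lemma G_two : G 2 = s := by unfold G s; norm_num

lemma id1 (ν x : ℝ) : x * T ν x =
    ν * H x ^ 2 * (G x * H x - 1) + G x * H x * (H x ^ 2 - 1) + 2 * x * G x * Hd x := by
  unfold T p q G H Hd
  ring

lemma id2 (x : ℝ) : 2 * x * Gd x = H x - G x := by
  unfold Gd H G
  ring

lemma id3 (x : ℝ) : (2 - x) * E1 x = 1 - 16 / 9 * (H x ^ 2 - 1) ^ 2 := by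
  unfold E1 H
  ring

lemma id4 (x : ℝ) : (2 - x) * G1 x = G x ^ 2 - s ^ 2 := by
  have h : (2 - x) * J x / 1260 = G x - s := by
    unfold J G s
    ring
  unfold G1
  calc (2 - x) * (J x * (G x + s) / 1260) = ((2 - x) * J x / 1260) * (G x + s) := by ring
    _ = G x ^ 2 - s ^ 2 := by rw [h]; ring

lemma G_hasDerivAt (x : ℝ) : HasDerivAt G (Gd x) x := by
  have h : HasDerivAt (fun x : ℝ => 1 + (105 * x - 189 * x ^ 2 + 135 * x ^ 3 - 35 * x ^ 4) / 1260)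
      (Gd x) x := by
    have h1 := ((((((hasDerivAt_id x).const_mul 105).sub ((hasDerivAt_pow 2 x).const_mul 189)).add
      ((hasDerivAt_pow 3 x).const_mul 135)).sub ((hasDerivAt_pow 4 x).const_mul 35)).div_const
      1260).const_add 1
    refine h1.congr_deriv ?_
    unfold Gd
    norm_num
    ring
  refine h.congr_of_eventuallyEq (Filter.Eventually.of_forall fun y => ?_)
  unfold G
  ring

lemma H_hasDerivAt (x : ℝ) : HasDerivAt H (Hd x) x := by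
  have h : HasDerivAt (fun x : ℝ => 1 + (x - 3 * x ^ 2 + 3 * x ^ 3 - x ^ 4) / 4) (Hd x) x := by
    have h1 := ((((((hasDerivAt_id x)).sub ((hasDerivAt_pow 2 x).const_mul 3)).add
      ((hasDerivAt_pow 3 x).const_mul 3)).sub (hasDerivAt_pow 4 x)).div_const 4).const_add 1
    refine h1.congr_deriv ?_
    unfold Hd
    norm_num
    ring
  refine h.congr_of_eventuallyEq (Filter.Eventually.of_forall fun y => ?_)
  unfold H
  ring

lemma tau_hasDerivAt (x : ℝ) :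
    HasDerivAt (fun x => x * G x ^ 2 / (2 * s ^ 2)) (G x * H x / (2 * s ^ 2)) x := by
  have h1 := (((hasDerivAt_id x).mul ((G_hasDerivAt x).pow 2)).div_const (2 * s ^ 2))
  refine (h1.congr_deriv ?_).congr_of_eventuallyEq (Filter.Eventually.of_forall fun y => ?_)
  · have h2 := id2 x
    congr 1
    simp only [id_eq, Nat.cast_ofNat, Nat.add_one_sub_one, pow_one, Pi.pow_apply]
    linear_combination (G x) * h2
  · simp

lemma taud_hasDerivAt (x : ℝ) :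
    HasDerivAt (fun x => G x * H x / (2 * s ^ 2)) ((Gd x * H x + G x * Hd x) / (2 * s ^ 2)) x :=
  ((G_hasDerivAt x).mul (H_hasDerivAt x)).div_const _

lemma J_pos {x : ℝ} (h0 : 0 ≤ x) : 0 < J x := by
  unfold J
  have : 0 < 35 * x ^ 2 - 65 * x + 59 := by nlinarith [sq_nonneg (x - 13 / 14)]
  nlinarith [mul_nonneg h0 this.le]

lemma s_pos : 0 < s := by unfold s; norm_num

lemma G_pos {x : ℝ} (h0 : 0 ≤ x) (h2 : x ≤ 2) : 0 < G x := by
  have h : (2 - x) * J x / 1260 = G x - s := by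
    unfold J G s
    ring
  have h1 : 0 ≤ (2 - x) * J x / 1260 := by
    have := J_pos h0
    have : 0 ≤ 2 - x := by linarith
    positivity
  have := s_pos
  linarith

lemma cube_bound {x : ℝ} (h0 : 0 ≤ x) (h2 : x ≤ 2) : -2 ≤ x * (1 - x) ^ 3 ∧ x * (1 - x) ^ 3 ≤ 1 := by
  constructor
  · nlinarith [sq_nonneg (x * (x - 1)), sq_nonneg (x - 1), mul_nonneg h0 (sub_nonneg.2 h2),
      mul_nonneg (mul_nonneg h0 (sub_nonneg.2 h2)) (sq_nonneg (x - 1)), sq_nonneg x]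
  · rcases le_total x 1 with h | h
    · have h3 : (1 - x) ^ 3 ≤ 1 := pow_le_one₀ (by linarith) (by linarith)
      have h4 : 0 ≤ (1 - x) ^ 3 := pow_nonneg (by linarith) 3
      nlinarith
    · have h4 : (1 - x) ^ 3 ≤ 0 := by
        have : 0 ≤ (x - 1) ^ 3 := pow_nonneg (by linarith) 3
        nlinarith
      nlinarith

lemma H_bounds {x : ℝ} (h0 : 0 ≤ x) (h2 : x ≤ 2) : 1 / 2 ≤ H x ∧ H x ≤ 5 / 4 := by
  have := cube_bound h0 h2
  unfold H
  constructor <;> linarith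

lemma E1_pos {x : ℝ} (h0 : 0 ≤ x) (h2 : x ≤ 2) : 0 < E1 x := by
  obtain ⟨h3, h4⟩ := H_bounds h0 h2
  unfold E1
  have h5 : 0 < 7 - 4 * H x ^ 2 := by nlinarith
  have h6 : 0 < 2 * H x + 1 := by linarith
  have h7 : 0 < x ^ 3 - x ^ 2 + x + 1 := by nlinarith [mul_nonneg h0 (sq_nonneg (x - 1)), sq_nonneg x]
  positivity

lemma G1_pos {x : ℝ} (h0 : 0 ≤ x) (h2 : x ≤ 2) : 0 < G1 x := by
  unfold G1
  have := J_pos h0
  have := G_pos h0 h2
  have := s_pos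
  positivity

lemma b_eq (x : ℝ) : 2 * (1 - x) * (G x * H x) * (H x ^ 2 - 1) =
    x * (1 - x) ^ 4 * (G x * H x) * (1 + H x) / 2 := by
  have h : H x ^ 2 - 1 = x * (1 - x) ^ 3 / 4 * (1 + H x) := by
    have : H x - 1 = x * (1 - x) ^ 3 / 4 := by unfold H; ring
    rw [← this]
    ring
  rw [h]
  ring

lemma b_nonneg {x : ℝ} (h0 : 0 ≤ x) (h2 : x ≤ 2) :
    0 ≤ 2 * (1 - x) * (G x * H x) * (H x ^ 2 - 1) := by
  rw [b_eq]
  have := G_pos h0 h2
  have := (H_bounds h0 h2).1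
  have : 0 < H x := by linarith
  have : 0 ≤ (1 - x) ^ 4 := by positivity
  positivity

lemma T_pos {ν : ℝ} (hν : 0 < ν) {x : ℝ} (h0 : 0 ≤ x) (h2 : x ≤ 2)
    (hb : 2 * (1 - x) * (G x * H x) * (H x ^ 2 - 1) = 0) : 0 < T ν x := by
  rw [b_eq] at hb
  have hG := G_pos h0 h2
  have hH : 0 < H x := by linarith [(H_bounds h0 h2).1]
  have hx : x = 0 ∨ x = 1 := by
    by_contra hne
    push Not at hne
    have h3 : 0 < x := lt_of_le_of_ne h0 (Ne.symm hne.1)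
    have h4 : 0 < (1 - x) ^ 4 := by
      have : 1 - x ≠ 0 := fun h => hne.2 (by linarith)
      positivity
    have : 0 < x * (1 - x) ^ 4 * (G x * H x) * (1 + H x) / 2 := by positivity
    linarith
  rcases hx with rfl | rfl
  · unfold T p q G H Hd
    norm_num
    linarith
  · unfold T p q G H Hd
    norm_num
    linarith

lemma exists_K {ν M : ℝ} {x : ℝ} : K ν M x = T ν x + M * (2 * (1 - x) * (G x * H x) * (H x ^ 2 - 1)) :=
  rfl

/-- The algebraic identity behind the first solution. -/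
lemma key (σ ν M g h gd hd t e₁ g₁ s ψ : ℝ) (hg : g ≠ 0) (hh : h ≠ 0) (hg1 : g₁ ≠ 0) (hs : s ≠ 0)
    (i1 : σ * t = ν * h ^ 2 * (g * h - 1) + g * h * (h ^ 2 - 1) + 2 * σ * g * hd)
    (i2 : 2 * σ * gd = h - g)
    (i3 : (2 - σ) * e₁ = 1 - 16 / 9 * (h ^ 2 - 1) ^ 2)
    (i4 : (2 - σ) * g₁ = g ^ 2 - s ^ 2) (e B : ℝ)
    (he : e = M * (1 - σ) * (1 - 16 / 9 * (h ^ 2 - 1) ^ 2) - 8 / 9 * t * (h ^ 2 - 1) / (g * h))
    (hB : B = ψ * (4 * s ^ 2 * e₁ * (t + M * (2 * (1 - σ) * (g * h) * (h ^ 2 - 1))) /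
      (g * h ^ 3 * g₁))) :
    ψ * (2 * (1 + ν) + 4 * σ * e) + B * σ / 2 - B * (σ * g ^ 2 / (2 * s ^ 2)) =
      2 * (1 + ν) * (ψ / (g * h)) + 4 * (σ * g ^ 2) * (e * ψ / (g * h) ^ 2 -
        ψ * (gd * h + g * hd) / (g * h) ^ 3) := by
  -- the terms with `B`
  have hB2 : B * σ / 2 - B * (σ * g ^ 2 / (2 * s ^ 2)) =
      -(2 * ψ * σ * (1 - 16 / 9 * (h ^ 2 - 1) ^ 2) *
        (t + M * (2 * (1 - σ) * (g * h) * (h ^ 2 - 1)))) / (g * h ^ 3) := by
    have h1 : B * σ / 2 - B * (σ * g ^ 2 / (2 * s ^ 2)) =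
        -(B * (σ * (g ^ 2 - s ^ 2) / (2 * s ^ 2))) := by
      field_simp
      ring
    rw [h1, ← i3, ← i4, hB]
    generalize t + M * (2 * (1 - σ) * (g * h) * (h ^ 2 - 1)) = κ
    field_simp
    ring
  have he' : e * (g * h) = M * (1 - σ) * (1 - 16 / 9 * (h ^ 2 - 1) ^ 2) * (g * h) -
      8 / 9 * t * (h ^ 2 - 1) := by
    rw [he, sub_mul, div_mul_cancel₀ _ (mul_ne_zero hg hh)]
  have core : 2 * (1 + ν) * (g * h ^ 3 - h ^ 2) + 4 * σ * (e * (g * h)) * (h ^ 2 - 1) +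
      4 * σ * (gd * h + g * hd) = 2 * σ * (1 - 16 / 9 * (h ^ 2 - 1) ^ 2) *
        (t + M * (2 * (1 - σ) * (g * h) * (h ^ 2 - 1))) := by
    linear_combination (4 * σ * (h ^ 2 - 1)) * he' + (2 * h) * i2 - 2 * i1
  have hr : 2 * (1 + ν) * (ψ / (g * h)) + 4 * (σ * g ^ 2) * (e * ψ / (g * h) ^ 2 -
        ψ * (gd * h + g * hd) / (g * h) ^ 3) =
      (2 * (1 + ν) * ψ * h ^ 2 + 4 * σ * ψ * (e * (g * h)) - 4 * σ * ψ * (gd * h + g * hd)) /
        (g * h ^ 3) := by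
    field_simp
    ring
  have hgh : g * h ^ 3 ≠ 0 := mul_ne_zero hg (pow_ne_zero 3 hh)
  rw [add_sub_assoc, hB2, hr, eq_div_iff hgh, add_mul, div_mul_cancel₀ _ hgh]
  linear_combination ψ * core

end Pool.Agent.Y855.RD
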