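import Mathlib
import Pool.Agent.H223R3.Radial.Glue

/-!
# Radial profiles from two charts
-/

set_option autoImplicit false

open Set Filter Topology

namespace Pool.Agent.Y855.RD

open Pool.Agent.H223R3.Radial

/-- The admissible nonlinearities: `f = f(r,u)` is continuously differentiable on
`[0,1] × [0,∞)` and its derivative in `r` is nonpositive there. -/
def Admissible (f : ℝ → ℝ → ℝ) : Prop :=
  ContDiffOn ℝ 1 (Function.uncurry f) (Icc 0 1 ×ˢ Ici 0) ∧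
    ∀ r ∈ Icc (0 : ℝ) 1, ∀ u : ℝ, 0 ≤ u → derivWithin (fun t => f t u) (Icc 0 1) r ≤ 0

/-- `u` is a (classical) positive solution of
`u'' + (n - 1)/r u' + lam f(r,u) = 0` on `(0,1)`, `u'(0) = u(1) = 0`, with `lam > 0`:
`u` is twice continuously differentiable on `[0,1]` and positive on `[0,1)`. -/
def PositiveSolution (n : ℝ) (f : ℝ → ℝ → ℝ) (lam : ℝ) (u : ℝ → ℝ) : Prop :=
  0 < lam ∧ ContDiffOn ℝ 2 u (Icc 0 1) ∧ derivWithin u (Icc 0 1) 0 = 0 ∧ u 1 = 0 ∧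
    (∀ r : ℝ, 0 ≤ r → r < 1 → 0 < u r) ∧
    ∀ r ∈ Ioo (0 : ℝ) 1, deriv (deriv u) r + (n - 1) / r * deriv u r + lam * f r (u r) = 0

/-- `u(0)` is a global parameter: it determines the solution pair `(lam, u)`. -/
def IsGlobalParameter (n : ℝ) (f : ℝ → ℝ → ℝ) : Prop :=
  ∀ (lam₁ lam₂ : ℝ) (u₁ u₂ : ℝ → ℝ), PositiveSolution n f lam₁ u₁ →
    PositiveSolution n f lam₂ u₂ → u₁ 0 = u₂ 0 → lam₁ = lam₂ ∧ EqOn u₁ u₂ (Icc 0 1)

/-- The profile `α - X₀(W(r²))`. -/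
noncomputable def prof (C0 C : Chart) (α : ℝ) : ℝ → ℝ := fun r => α - C0.X (C.W (r ^ 2))

variable (C0 C : Chart)

lemma prof_contDiff (α : ℝ) : ContDiff ℝ 2 (prof C0 C α) :=
  contDiff_const.sub ((contDiff_two C0.hX C0.hX' C0.hX'').comp
    (C.contDiff_W.comp (contDiff_id.pow 2)))

lemma hasDerivAt_W_sq (r : ℝ) :
    HasDerivAt (fun r => C.W (r ^ 2)) ((C.X' (C.W (r ^ 2)))⁻¹ * (2 * r)) r := by
  have h1 : HasDerivAt (fun r : ℝ => r ^ 2) (2 * r) r := by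
    simpa using hasDerivAt_pow 2 r
  exact HasDerivAt.comp r (C.hasDerivAt_W (r ^ 2)) h1

lemma prof_hasDerivAt (α r : ℝ) : HasDerivAt (prof C0 C α)
    (-(2 * r * (C0.X' (C.W (r ^ 2)) * (C.X' (C.W (r ^ 2)))⁻¹))) r := by
  have h2 := HasDerivAt.comp r (C0.hX (C.W (r ^ 2))) (hasDerivAt_W_sq C r)
  have h3 := h2.const_sub α
  refine h3.congr_deriv ?_
  ring

lemma prof_deriv (α : ℝ) : deriv (prof C0 C α) =
    fun r => -(2 * r * (C0.X' (C.W (r ^ 2)) * (C.X' (C.W (r ^ 2)))⁻¹)) :=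
  funext fun r => (prof_hasDerivAt C0 C α r).deriv

lemma prof_deriv2 (α r : ℝ) : deriv (deriv (prof C0 C α)) r =
    -2 * (C0.X' (C.W (r ^ 2)) / C.X' (C.W (r ^ 2))) -
      4 * r ^ 2 * (C0.X'' (C.W (r ^ 2)) / C.X' (C.W (r ^ 2)) ^ 2 -
        C0.X' (C.W (r ^ 2)) * C.X'' (C.W (r ^ 2)) / C.X' (C.W (r ^ 2)) ^ 3) := by
  rw [prof_deriv]
  have h2 := hasDerivAt_W_sq C r
  have h3 : HasDerivAt (fun r => C.X' (C.W (r ^ 2)))
      (C.X'' (C.W (r ^ 2)) * ((C.X' (C.W (r ^ 2)))⁻¹ * (2 * r))) r :=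
    HasDerivAt.comp r (C.hX' (C.W (r ^ 2))) h2
  have h3' : HasDerivAt (fun r => C0.X' (C.W (r ^ 2)))
      (C0.X'' (C.W (r ^ 2)) * ((C.X' (C.W (r ^ 2)))⁻¹ * (2 * r))) r :=
    HasDerivAt.comp r (C0.hX' (C.W (r ^ 2))) h2
  have hne : C.X' (C.W (r ^ 2)) ≠ 0 := (C.pos _).ne'
  have h4 := h3.inv hne
  have h5 : HasDerivAt (fun r : ℝ => 2 * r) 2 r := by
    simpa using (hasDerivAt_id r).const_mul 2
  have h6 := (h5.mul (h3'.mul h4)).neg
  have h7 : deriv (fun r => -(2 * r * (C0.X' (C.W (r ^ 2)) * (C.X' (C.W (r ^ 2)))⁻¹))) r = _ :=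
    h6.deriv
  rw [h7]
  simp only [Pi.mul_apply, Pi.inv_apply]
  field_simp
  ring

/-- The general solution lemma. -/
lemma solution (n : ℝ) (A B : ℝ → ℝ) (lam : ℝ) (hlam : 0 < lam) (h0 : C.X 0 = 0)
    (h2 : C.X 2 = 1)
    (heq : ∀ σ, 0 < σ → σ < 2 → lam * (A σ - B σ * C.X σ) =
      2 * n * (C0.X' σ / C.X' σ) +
        4 * C.X σ * (C0.X'' σ / C.X' σ ^ 2 - C0.X' σ * C.X'' σ / C.X' σ ^ 3)) :
    PositiveSolution n
      (fun r w => A (C0.W (C0.X 2 - w)) - B (C0.W (C0.X 2 - w)) * r ^ 2) lam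
      (prof C0 C (C0.X 2)) := by
  have hW0 : C.W 0 = 0 := by rw [← h0, C.W_X, h0]
  have hW1 : C.W 1 = 2 := by rw [← h2, C.W_X]
  refine ⟨hlam, (prof_contDiff C0 C _).contDiffOn, ?_, ?_, ?_, ?_⟩
  · have h := prof_hasDerivAt C0 C (C0.X 2) 0
    have h3 : HasDerivAt (prof C0 C (C0.X 2)) 0 0 := h.congr_deriv (by simp)
    exact h3.hasDerivWithinAt.derivWithin (uniqueDiffOn_Icc one_pos 0 (by simp))
  · unfold prof
    rw [one_pow, hW1, sub_self]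
  · intro r hr0 hr1
    unfold prof
    have h3 : C.W (r ^ 2) < 2 := by
      rw [← hW1]
      apply C.W_strictMono
      nlinarith
    have := C0.strictMono h3
    linarith
  · intro r hr
    have hσ0 : 0 < C.W (r ^ 2) := by
      rw [← hW0]
      apply C.W_strictMono
      exact pow_pos hr.1 2
    have hσ1 : C.W (r ^ 2) < 2 := by
      rw [← hW1]
      apply C.W_strictMono
      nlinarith [hr.1, hr.2]
    have e := heq _ hσ0 hσ1
    have hX : C.X (C.W (r ^ 2)) = r ^ 2 := C.X_W _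
    have hw : C0.W (C0.X 2 - prof C0 C (C0.X 2) r) = C.W (r ^ 2) := by
      unfold prof
      rw [sub_sub_cancel, C0.W_X]
    rw [hX] at e
    simp only [hw]
    rw [e, prof_deriv2, prof_deriv]
    have hr0 : r ≠ 0 := hr.1.ne'
    have hne : C.X' (C.W (r ^ 2)) ≠ 0 := (C.pos _).ne'
    field_simp
    ring

end Pool.Agent.Y855.RD
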