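import Mathlib
import Pool.Agent.Y855.RD.Base
import Pool.Agent.Y855.RD.Sol
import Pool.Agent.Y855.RD.Poly

/-!
# For every `n > 1` the value `u(0)` is not a global parameter
-/

set_option autoImplicit false

open Set Filter Topology

namespace Pool.Agent.Y855.RD

open Pool.Agent.H223R3.Radial

/-- `f` on the support of the cutoff, mixed with the constant `1`. -/
noncomputable def mix (δ : ℝ) (f : ℝ → ℝ) (x : ℝ) : ℝ := chi δ x * f x + (1 - chi δ x)

lemma mix_contDiff (δ : ℝ) {f : ℝ → ℝ} (hf : ContDiff ℝ 1 f) : ContDiff ℝ 1 (mix δ f) :=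
  ((chi_contDiff δ).mul hf).add (contDiff_const.sub (chi_contDiff δ))

lemma mix_eq {δ : ℝ} (f : ℝ → ℝ) {x : ℝ} (hδ : 0 < δ) (h0 : 0 ≤ x) (h2 : x ≤ 2) :
    mix δ f x = f x := by
  unfold mix
  rw [chi_one hδ h0 h2]
  ring

lemma mix_pos {δ : ℝ} {f : ℝ → ℝ} (h : ∀ x, chi δ x ≠ 0 → 0 < f x) (x : ℝ) : 0 < mix δ f x := by
  unfold mix
  by_cases hx : chi δ x = 0
  · rw [hx]; norm_num
  · have h1 := h x hx
    have h2 : 0 < chi δ x := lt_of_le_of_ne (chi_nonneg δ x) (Ne.symm hx)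
    have h3 := chi_le_one δ x
    have := mul_pos h2 h1
    linarith

lemma mix_out {δ : ℝ} (f : ℝ → ℝ) {x : ℝ} (hδ : 0 < δ) (hδ1 : δ < 1)
    (hx : x ∉ Icc (-1 : ℝ) 3) : mix δ f x = 1 := by
  have h : chi δ x = 0 := by
    by_contra hne
    have := chi_mem hδ hne
    exact hx ⟨by linarith [this.1], by linarith [this.2]⟩
  unfold mix
  rw [h]
  ring

lemma mix_hasDerivAt {δ : ℝ} {f : ℝ → ℝ} {x f' : ℝ} (hδ : 0 < δ) (h0 : 0 < x) (h2 : x < 2)
    (hf : HasDerivAt f f' x) : deriv (mix δ f) x = f' := by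
  have h : HasDerivAt (mix δ f) f' x := by
    refine hf.congr_of_eventuallyEq ?_
    filter_upwards [Ioo_mem_nhds h0 h2] with y hy
    exact mix_eq f hδ hy.1.le hy.2.le
  exact h.deriv

lemma G_contDiff : ContDiff ℝ 1 G := by unfold G; fun_prop
lemma H_contDiff : ContDiff ℝ 1 H := by unfold H; fun_prop
lemma Hd_contDiff : ContDiff ℝ 1 Hd := by unfold Hd; fun_prop
lemma p_contDiff : ContDiff ℝ 1 p := by unfold p; fun_prop
lemma q_contDiff : ContDiff ℝ 1 q := by
  have := H_contDiff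
  unfold q; fun_prop
lemma T_contDiff (ν : ℝ) : ContDiff ℝ 1 (T ν) := by
  have := H_contDiff
  have := G_contDiff
  have := Hd_contDiff
  have := p_contDiff
  have := q_contDiff
  unfold T; fun_prop
lemma E1_contDiff : ContDiff ℝ 1 E1 := by
  have := H_contDiff
  unfold E1; fun_prop
lemma G1_contDiff : ContDiff ℝ 1 G1 := by
  have := G_contDiff
  have : ContDiff ℝ 1 J := by unfold J; fun_prop
  unfold G1; fun_prop
lemma b_contDiff : ContDiff ℝ 1 (fun x => 2 * (1 - x) * (G x * H x) * (H x ^ 2 - 1)) := by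
  have := H_contDiff
  have := G_contDiff
  fun_prop
lemma K_contDiff (ν M : ℝ) : ContDiff ℝ 1 (K ν M) := by
  have h1 := T_contDiff ν
  have h2 := b_contDiff
  unfold K
  exact h1.add (contDiff_const.mul h2)

theorem not_global {n : ℝ} (hn : 1 < n) :
    ∃ f : ℝ → ℝ → ℝ, Admissible f ∧ ¬ IsGlobalParameter n f := by
  obtain ⟨ν, rfl⟩ : ∃ ν, n = 1 + ν := ⟨n - 1, by ring⟩
  have hν : 0 < ν := by linarith
  obtain ⟨M, hM⟩ := exists_M (T_contDiff ν).continuous b_contDiff.continuous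
    (fun x hx => b_nonneg hx.1 hx.2) (fun x hx hb => T_pos hν hx.1 hx.2 hb)
  have hU : IsOpen ({x | 0 < G x} ∩ {x | 0 < H x} ∩ {x | 0 < G1 x} ∩ {x | 0 < E1 x} ∩
      {x | 0 < K ν M x}) :=
    ((((isOpen_lt continuous_const G_contDiff.continuous).inter
      (isOpen_lt continuous_const H_contDiff.continuous)).inter
      (isOpen_lt continuous_const G1_contDiff.continuous)).inter
      (isOpen_lt continuous_const E1_contDiff.continuous)).inter
      (isOpen_lt continuous_const (K_contDiff ν M).continuous)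
  obtain ⟨δ, hδ, hδ1, hsub⟩ := exists_delta hU (fun x hx =>
    ⟨⟨⟨⟨G_pos hx.1 hx.2, by
      have := (H_bounds hx.1 hx.2).1
      change 0 < H x
      linarith⟩, G1_pos hx.1 hx.2⟩, E1_pos hx.1 hx.2⟩, hM x hx⟩)
  have hmem := fun x (hx : chi δ x ≠ 0) => hsub (chi_mem hδ hx)
  have hGg : ∀ x, 0 < mix δ G x := mix_pos fun x hx => (hmem x hx).1.1.1.1
  have hHg : ∀ x, 0 < mix δ H x := mix_pos fun x hx => (hmem x hx).1.1.1.2
  have hG1g : ∀ x, 0 < mix δ G1 x := mix_pos fun x hx => (hmem x hx).1.1.2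
  obtain ⟨e, he_def⟩ : ∃ e : ℝ → ℝ, e = fun x => chi δ x *
      (M * (1 - x) * (1 - 16 / 9 * (H x ^ 2 - 1) ^ 2) -
        8 / 9 * T ν x * (H x ^ 2 - 1) / (mix δ G x * mix δ H x)) := ⟨_, rfl⟩
  have he : ContDiff ℝ 1 e := by
    rw [he_def]
    have h1 := H_contDiff
    have h2 := T_contDiff ν
    refine (chi_contDiff δ).mul (ContDiff.sub (by fun_prop) ?_)
    refine ContDiff.div (by fun_prop) ((mix_contDiff δ G_contDiff).mul (mix_contDiff δ H_contDiff))
      fun x => (mul_pos (hGg x) (hHg x)).ne'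
  obtain ⟨L, hL_def⟩ : ∃ L : ℝ → ℝ, L = fun x => ∫ t in (0 : ℝ)..x, e t := ⟨_, rfl⟩
  have hL : ∀ x, HasDerivAt L (e x) x := by
    intro x
    rw [hL_def]
    exact intervalIntegral.integral_hasDerivAt_right (he.continuous.intervalIntegrable _ _)
      (he.continuous.stronglyMeasurableAtFilter _ _) he.continuous.continuousAt
  have hLc : ContDiff ℝ 1 L := by
    rw [contDiff_one_iff_deriv]
    refine ⟨fun x => (hL x).differentiableAt, ?_⟩
    have : deriv L = e := funext fun x => (hL x).deriv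
    rw [this]
    exact he.continuous
  obtain ⟨ψ, hψ_def⟩ : ∃ ψ : ℝ → ℝ, ψ = fun x => Real.exp (L x) := ⟨_, rfl⟩
  have hψpos : ∀ x, 0 < ψ x := by
    intro x
    rw [hψ_def]
    exact Real.exp_pos _
  have hψ : ∀ x, HasDerivAt ψ (e x * ψ x) x := by
    intro x
    rw [hψ_def]
    refine (hL x).exp.congr_deriv ?_
    ring
  have hψc : ContDiff ℝ 1 ψ := by
    rw [hψ_def]
    exact hLc.exp
  -- charts
  obtain ⟨m0, hm0, hlow0⟩ := exists_low (mix_contDiff δ hψc).continuous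
    (mix_pos fun x _ => hψpos x) (fun x hx => mix_out ψ hδ hδ1 hx)
  have hgh : ContDiff ℝ 1 (fun x => G x * H x / (2 * s ^ 2)) :=
    (G_contDiff.mul H_contDiff).div_const _
  obtain ⟨m1, hm1, hlow1⟩ := exists_low (mix_contDiff δ hgh).continuous
    (mix_pos fun x hx => by
      have h1 : 0 < G x := (hmem x hx).1.1.1.1
      have h2 : 0 < H x := (hmem x hx).1.1.1.2
      have := s_pos
      positivity) (fun x hx => mix_out _ hδ hδ1 hx)
  obtain ⟨C0, hC0⟩ : ∃ C0 : Chart, C0 = mkChart _ (mix_contDiff δ hψc) m0 hm0 hlow0 := ⟨_, rfl⟩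
  obtain ⟨C1, hC1⟩ : ∃ C1 : Chart, C1 = mkChart _ (mix_contDiff δ hgh) m1 hm1 hlow1 := ⟨_, rfl⟩
  obtain ⟨C2, hC2⟩ : ∃ C2 : Chart, C2 = mkChart (fun _ => 1 / 2) contDiff_const (1 / 2)
    (by norm_num) (fun _ => le_rfl) := ⟨_, rfl⟩
  obtain ⟨B, hB_def⟩ : ∃ B : ℝ → ℝ, B = fun x => chi δ x *
      (ψ x * (4 * s ^ 2 * E1 x * K ν M x / (mix δ G x * mix δ H x ^ 3 * mix δ G1 x))) := ⟨_, rfl⟩
  have hB : ContDiff ℝ 1 B := by
    rw [hB_def]
    refine (chi_contDiff δ).mul (hψc.mul (ContDiff.div ?_ ?_ fun x => ?_))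
    · exact (contDiff_const.mul E1_contDiff).mul (K_contDiff ν M)
    · exact ((mix_contDiff δ G_contDiff).mul ((mix_contDiff δ H_contDiff).pow 3)).mul
        (mix_contDiff δ G1_contDiff)
    · exact (mul_pos (mul_pos (hGg x) (pow_pos (hHg x) 3)) (hG1g x)).ne'
  have hBnn : ∀ x, 0 ≤ B x := by
    intro x
    rw [hB_def]
    by_cases hx : chi δ x = 0
    · simp only [hx, zero_mul]
      exact le_rfl
    · have h1 : 0 < E1 x := (hmem x hx).1.2
      have h2 : 0 < K ν M x := (hmem x hx).2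
      have h3 := hGg x
      have h4 := hHg x
      have h5 := hG1g x
      have h6 := hψpos x
      have h7 := chi_nonneg δ x
      have h8 := s_pos
      positivity
  obtain ⟨A, hA_def⟩ : ∃ A : ℝ → ℝ, A = fun x => ψ x * (2 * (1 + ν) + 4 * x * e x) + B x * x / 2 :=
    ⟨_, rfl⟩
  have hA : ContDiff ℝ 1 A := by
    rw [hA_def]
    fun_prop
  -- the charts on `[0, 2]`
  have hC1X : ∀ σ, 0 ≤ σ → σ ≤ 2 → C1.X σ = σ * G σ ^ 2 / (2 * s ^ 2) := by
    intro σ h0 h2
    rw [hC1]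
    change ∫ t in (0 : ℝ)..σ, mix δ (fun x => G x * H x / (2 * s ^ 2)) t = _
    rw [intervalIntegral.integral_eq_sub_of_hasDerivAt
      (f := fun x => x * G x ^ 2 / (2 * s ^ 2)) (fun x hx => ?_)
      ((mix_contDiff δ hgh).continuous.intervalIntegrable _ _)]
    · simp
    · rw [uIcc_of_le h0] at hx
      rw [mix_eq _ hδ hx.1 (hx.2.trans h2)]
      exact tau_hasDerivAt x
  have hC2X : ∀ σ, C2.X σ = σ / 2 := by
    intro σ
    rw [hC2]
    change ∫ t in (0 : ℝ)..σ, (1 / 2 : ℝ) = _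
    rw [intervalIntegral.integral_const, smul_eq_mul]
    ring
  have hsp := s_pos
  have hC0' : ∀ σ, 0 < σ → σ < 2 → C0.X' σ = ψ σ := by
    intro σ h0 h2
    rw [hC0]
    exact mix_eq _ hδ h0.le h2.le
  have hC0'' : ∀ σ, 0 < σ → σ < 2 → C0.X'' σ = e σ * ψ σ := by
    intro σ h0 h2
    rw [hC0]
    exact mix_hasDerivAt hδ h0 h2 (hψ σ)
  refine ⟨fun r w => A (C0.W (C0.X 2 - w)) - B (C0.W (C0.X 2 - w)) * r ^ 2, ⟨?_, ?_⟩, ?_⟩
  · have hW : ContDiff ℝ 1 (fun x : ℝ × ℝ => C0.W (C0.X 2 - x.2)) :=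
      (C0.contDiff_W.of_le (by norm_num)).comp (contDiff_const.sub contDiff_snd)
    have h1 : ContDiff ℝ 1 (Function.uncurry (fun r w : ℝ =>
        A (C0.W (C0.X 2 - w)) - B (C0.W (C0.X 2 - w)) * r ^ 2)) :=
      (hA.comp hW).sub ((hB.comp hW).mul (contDiff_fst.pow 2))
    exact h1.contDiffOn
  · intro r hr u _
    have h1 : HasDerivAt (fun t : ℝ => A (C0.W (C0.X 2 - u)) - B (C0.W (C0.X 2 - u)) * t ^ 2)
        (-(B (C0.W (C0.X 2 - u)) * (2 * r))) r := by
      have h2 : HasDerivAt (fun r : ℝ => r ^ 2) (2 * r) r := by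
        simpa using hasDerivAt_pow 2 r
      exact (h2.const_mul (B (C0.W (C0.X 2 - u)))).const_sub (A (C0.W (C0.X 2 - u)))
    rw [h1.hasDerivWithinAt.derivWithin (uniqueDiffOn_Icc one_pos r hr)]
    have := mul_nonneg (hBnn (C0.W (C0.X 2 - u))) (by linarith [hr.1] : (0 : ℝ) ≤ 2 * r)
    linarith
  · intro hglob
    -- first solution
    have s1 : PositiveSolution (1 + ν)
        (fun r w => A (C0.W (C0.X 2 - w)) - B (C0.W (C0.X 2 - w)) * r ^ 2) (2 * s ^ 2)
        (prof C0 C1 (C0.X 2)) := by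
      refine solution C0 C1 (1 + ν) A B (2 * s ^ 2) (by positivity) ?_ ?_ ?_
      · rw [hC1X 0 le_rfl (by norm_num)]
        simp
      · rw [hC1X 2 (by norm_num) le_rfl, G_two]
        field_simp
      · intro σ h0 h2
        have hG : G σ ≠ 0 := (G_pos h0.le h2.le).ne'
        have hH : H σ ≠ 0 := by
          have := (H_bounds h0.le h2.le).1
          intro h
          linarith
        have hG1 : G1 σ ≠ 0 := (G1_pos h0.le h2.le).ne'
        have hC1' : C1.X' σ = G σ * H σ / (2 * s ^ 2) := by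
          rw [hC1]
          exact mix_eq (fun x => G x * H x / (2 * s ^ 2)) hδ h0.le h2.le
        have hC1'' : C1.X'' σ = (Gd σ * H σ + G σ * Hd σ) / (2 * s ^ 2) := by
          rw [hC1]
          exact mix_hasDerivAt hδ h0 h2 (taud_hasDerivAt σ)
        have heσ : e σ = M * (1 - σ) * (1 - 16 / 9 * (H σ ^ 2 - 1) ^ 2) -
            8 / 9 * T ν σ * (H σ ^ 2 - 1) / (G σ * H σ) := by
          rw [he_def]
          simp only
          rw [chi_one hδ h0.le h2.le, mix_eq G hδ h0.le h2.le, mix_eq H hδ h0.le h2.le, one_mul]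
        have hBσ : B σ = ψ σ * (4 * s ^ 2 * E1 σ *
            (T ν σ + M * (2 * (1 - σ) * (G σ * H σ) * (H σ ^ 2 - 1))) /
            (G σ * H σ ^ 3 * G1 σ)) := by
          rw [hB_def]
          simp only
          rw [chi_one hδ h0.le h2.le, mix_eq G hδ h0.le h2.le, mix_eq H hδ h0.le h2.le,
            mix_eq G1 hδ h0.le h2.le, one_mul]
          rfl
        have k := key σ ν M (G σ) (H σ) (Gd σ) (Hd σ) (T ν σ) (E1 σ) (G1 σ) s (ψ σ) hG hH hG1
          hsp.ne' (id1 ν σ) (id2 σ) (id3 σ) (id4 σ) (e σ) (B σ) heσ hBσ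
        have hAσ : A σ = ψ σ * (2 * (1 + ν) + 4 * σ * e σ) + B σ * σ / 2 := by rw [hA_def]
        rw [hC1X σ h0.le h2.le, hC0' σ h0 h2, hC0'' σ h0 h2, hC1', hC1'', hAσ, k]
        field_simp
    have s2 : PositiveSolution (1 + ν)
        (fun r w => A (C0.W (C0.X 2 - w)) - B (C0.W (C0.X 2 - w)) * r ^ 2) 2
        (prof C0 C2 (C0.X 2)) := by
      refine solution C0 C2 (1 + ν) A B 2 (by norm_num) ?_ ?_ ?_
      · rw [hC2X]; norm_num
      · rw [hC2X]; norm_num
      · intro σ h0 h2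
        have hC2' : C2.X' σ = 1 / 2 := by rw [hC2]; rfl
        have hC2'' : C2.X'' σ = 0 := by
          rw [hC2]
          change deriv (fun _ => (1 / 2 : ℝ)) σ = 0
          simp
        have hAσ : A σ = ψ σ * (2 * (1 + ν) + 4 * σ * e σ) + B σ * σ / 2 := by rw [hA_def]
        rw [hC2X σ, hC0' σ h0 h2, hC0'' σ h0 h2, hC2', hC2'', hAσ]
        ring
    have hW1 : C1.W 0 = 0 := by
      have h : C1.X 0 = 0 := by rw [hC1X 0 le_rfl (by norm_num)]; simp
      rw [← h, C1.W_X, h]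
    have hW2 : C2.W 0 = 0 := by
      have h : C2.X 0 = 0 := by rw [hC2X]; norm_num
      rw [← h, C2.W_X, h]
    have := (hglob _ _ _ _ s1 s2 (by
      unfold prof
      norm_num
      rw [hW1, hW2])).1
    unfold s at this
    norm_num at this

end Pool.Agent.Y855.RD
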